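import Pool.Agent.H500.SV.Stm

set_option autoImplicit false

/-!
# Project SV (helper500), part 6: a number field containing all the conjugates (helper415)
-/

namespace Pool.Agent.H415.SV.Emb

open NumberField
open Pool.Agent.H500.HC (QBar)

theorem fr_fin {E : Type} [Field E] [NumberField E] (f : E →ₐ[ℚ] QBar) :
    FiniteDimensional ℚ f.fieldRange := by
  have h : Function.Surjective f.rangeRestrict := f.rangeRestrict_surjective
  exact Module.Finite.of_surjective f.rangeRestrict.toLinearMap h

theorem main : Pool.Agent.H500.SV.S_Emb := by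
  intro E _ _ j r L _ _
  let F : IntermediateField ℚ QBar := j.toRatAlgHom.fieldRange ⊔
    ⨆ a : Fin r, ⨆ f : L a →ₐ[ℚ] QBar, f.fieldRange
  have h1 : FiniteDimensional ℚ j.toRatAlgHom.fieldRange := fr_fin _
  have h2 : ∀ (a : Fin r) (f : L a →ₐ[ℚ] QBar), FiniteDimensional ℚ f.fieldRange :=
    fun a f => fr_fin f
  have h3 : FiniteDimensional ℚ F := by
    have : ∀ a : Fin r, FiniteDimensional ℚ
        (⨆ f : L a →ₐ[ℚ] QBar, f.fieldRange : IntermediateField ℚ QBar) := fun a =>
      IntermediateField.finiteDimensional_iSup_of_finite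
    have : FiniteDimensional ℚ
        (⨆ a : Fin r, ⨆ f : L a →ₐ[ℚ] QBar, f.fieldRange : IntermediateField ℚ QBar) :=
      IntermediateField.finiteDimensional_iSup_of_finite
    exact IntermediateField.finiteDimensional_sup _ _
  have h4 : NumberField F := ⟨⟩
  have hj : ∀ x, j x ∈ F := fun x =>
    (le_sup_left : j.toRatAlgHom.fieldRange ≤ F) ⟨x, rfl⟩
  have hL : ∀ (a : Fin r) (f : L a →+* QBar) (x), f x ∈ F := by
    intro a f x
    have h5 : (f.toRatAlgHom).fieldRange ≤ F :=
      (le_iSup_of_le a (le_iSup_of_le f.toRatAlgHom le_rfl)).trans le_sup_right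
    exact h5 ⟨x, rfl⟩
  refine ⟨F, inferInstance, h4, j.codRestrict F.toSubfield.toSubring hj, (algebraMap F QBar), ?_, ?_⟩
  · ext x
    rfl
  · intro a
    rw [← NumberField.Embeddings.card (L a) QBar]
    refine Fintype.card_of_bijective (f := fun g : L a →+* F => (algebraMap F QBar).comp g) ⟨?_, ?_⟩
    · intro g g' hg
      ext x
      exact congrFun (congrArg DFunLike.coe hg) x
    · intro f
      exact ⟨f.codRestrict F.toSubfield.toSubring (hL a f), by ext x; rfl⟩

end Pool.Agent.H415.SV.Emb
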